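import Pool.Agent.Helper55.RT.Spec4

/-!
# KM2: the compositum of `κ` and a Galois extension `M` of a subfield `k₂` of `κ`
-/

set_option autoImplicit false
set_option linter.all false

open IntermediateField

namespace Pool.Agent.Helper85.Thin.KM2

open Pool.Agent.Helper55.RT

/-- the degree of the compositum of a Galois extension and a finite extension -/
theorem finrank_sup_galois {F E : Type*} [Field F] [Field E] [Algebra F E]
    (A B : IntermediateField F E) [IsGalois F A] [FiniteDimensional F A] [FiniteDimensional F B] :
    ∃ r : ℕ, Module.finrank F (A ⊔ B : IntermediateField F E) = Module.finrank F B * r ∧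
      r ∣ Module.finrank F A := by
  let C : IntermediateField F E := A ⊔ B
  let A' : IntermediateField F C := A.restrict le_sup_left
  let B' : IntermediateField F C := B.restrict le_sup_right
  have h₁ : A' ⊔ B' = ⊤ := by
    rw [← lift_inj, lift_top, lift_sup, lift_restrict le_sup_left, lift_restrict le_sup_right]
  have hA : IsGalois F A' := IsGalois.of_algEquiv <| restrictAlgEquiv ..
  have hAf : FiniteDimensional F A' := (restrictAlgEquiv _).toLinearEquiv.finiteDimensional
  have hBf : FiniteDimensional F B' := (restrictAlgEquiv _).toLinearEquiv.finiteDimensional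
  have hC : FiniteDimensional F C := finiteDimensional_sup A B
  have hG : IsGalois B' C := IsGalois.sup_right A' B' h₁
  have eA : Module.finrank F A' = Module.finrank F A :=
    ((restrictAlgEquiv (le_sup_left : A ≤ C)).toLinearEquiv.finrank_eq).symm
  have eB : Module.finrank F B' = Module.finrank F B :=
    ((restrictAlgEquiv (le_sup_right : B ≤ C)).toLinearEquiv.finrank_eq).symm
  refine ⟨Module.finrank B' C, ?_, ?_⟩
  · rw [← eB]
    exact (Module.finrank_mul_finrank F B' C).symm
  · rw [← eA, ← IsGalois.card_aut_eq_finrank, ← IsGalois.card_aut_eq_finrank]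
    exact Subgroup.card_dvd_of_injective (restrictRestrictAlgEquivMapHom F A' B' C)
      (restrictRestrictAlgEquivMapHom_injective A' B' h₁)

theorem main : Q_KM2 := by
  intro k k' _ _ _ _ _ k₂ κ _ hle M _ _
  let L : IntermediateField k₂ k' := extendScalars hle
  haveI hk₂ : FiniteDimensional k k₂ := by
    have h : FiniteDimensional k (k₂.restrict hle) := inferInstance
    exact (restrictAlgEquiv hle).symm.toLinearEquiv.finiteDimensional
  haveI hκ : Module.Finite k L := ‹FiniteDimensional k κ›
  haveI hL : FiniteDimensional k₂ L := Module.Finite.of_restrictScalars_finite k k₂ L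
  let C : IntermediateField k₂ k' := M ⊔ L
  haveI hC : FiniteDimensional k₂ C := finiteDimensional_sup M L
  obtain ⟨r, hr1, hr2⟩ := finrank_sup_galois M L
  have hLC : L ≤ C := le_sup_right
  have hMC : M ≤ C := le_sup_left
  refine ⟨C.restrictScalars k, ?_, ?_, ?_, ?_, r, ?_, hr2⟩
  · intro x hx
    exact hLC (show x ∈ L from hx)
  · exact (FiniteDimensional.trans k k₂ C : FiniteDimensional k C)
  · intro x hx
    exact hMC hx
  · intro ν hν x hx
    let ν' : k' →ₐ[k₂] k' :=
      { (ν : k' →+* k') with
        commutes' := fun y => hν y (hle y.2) }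
    have hCle : C ≤ C.comap ν' := by
      refine sup_le ?_ ?_
      · intro y hy
        have hf : (ν'.comp M.val).fieldRange = M := AlgHom.fieldRange_of_normal _
        have : ν' y ∈ (ν'.comp M.val).fieldRange := ⟨⟨y, hy⟩, rfl⟩
        rw [hf] at this
        exact hMC this
      · intro y hy
        have : ν' y = y := hν y hy
        show ν' y ∈ C
        rw [this]
        exact hLC hy
    exact hCle hx
  · have e1 : Module.finrank k (C.restrictScalars k) = Module.finrank k C := rfl
    have e2 : Module.finrank k κ = Module.finrank k L := rfl
    have e3 : Module.finrank k k₂ * Module.finrank k₂ C = Module.finrank k C :=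
      Module.finrank_mul_finrank k k₂ C
    have e4 : Module.finrank k k₂ * Module.finrank k₂ L = Module.finrank k L :=
      Module.finrank_mul_finrank k k₂ L
    have e5 : Module.finrank k₂ C = Module.finrank k₂ L * r := hr1
    rw [e1, e2, ← e3, ← e4, e5, mul_assoc]

end Pool.Agent.Helper85.Thin.KM2
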