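import Pool.Agent.Helper55.RT.Spec5

/-!
# Swarm THIN-3 (helper55), part LAT (helper85)
-/

set_option autoImplicit false

namespace Pool.Agent.Helper85.Thin.LAT

open Pool.Agent.Helper55.RT

variable {p : ℕ} [Fact p.Prime] {m : ℕ}

/-- `x ∈ p ^ j Λ` -/
def PP (Λ : Submodule ℤ_[p] (Fin m → ℚ_[p])) (j : ℕ) (x : Fin m → ℚ_[p]) : Prop :=
  ∃ y ∈ Λ, x = ((p : ℚ_[p]) ^ j) • y

variable {Λ : Submodule ℤ_[p] (Fin m → ℚ_[p])}

theorem p_ne : (p : ℚ_[p]) ≠ 0 := by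
  exact_mod_cast (Fact.out : p.Prime).ne_zero

theorem p_mem {y : Fin m → ℚ_[p]} (hy : y ∈ Λ) : (p : ℚ_[p]) • y ∈ Λ := by
  rw [Nat.cast_smul_eq_nsmul]
  exact nsmul_mem hy p

theorem ppow_mem (j : ℕ) {y : Fin m → ℚ_[p]} (hy : y ∈ Λ) : ((p : ℚ_[p]) ^ j) • y ∈ Λ := by
  induction j with
  | zero => simpa using hy
  | succ j ih =>
    rw [pow_succ', mul_smul]
    exact p_mem ih

theorem PP.add {j : ℕ} {x x' : Fin m → ℚ_[p]} (h : PP Λ j x) (h' : PP Λ j x') :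
    PP Λ j (x + x') := by
  obtain ⟨y, hy, rfl⟩ := h
  obtain ⟨y', hy', rfl⟩ := h'
  exact ⟨y + y', Λ.add_mem hy hy', by rw [smul_add]⟩

theorem PP.sub {j : ℕ} {x x' : Fin m → ℚ_[p]} (h : PP Λ j x) (h' : PP Λ j x') :
    PP Λ j (x - x') := by
  obtain ⟨y, hy, rfl⟩ := h
  obtain ⟨y', hy', rfl⟩ := h'
  exact ⟨y - y', Λ.sub_mem hy hy', by rw [smul_sub]⟩

theorem PP.zsmul {j : ℕ} {x : Fin m → ℚ_[p]} (h : PP Λ j x) (k : ℤ) : PP Λ j (k • x) := by
  obtain ⟨y, hy, rfl⟩ := h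
  exact ⟨k • y, zsmul_mem hy k, by rw [smul_comm]⟩

theorem PP.mono {i j : ℕ} (hij : i ≤ j) {x : Fin m → ℚ_[p]} (h : PP Λ j x) : PP Λ i x := by
  obtain ⟨y, hy, rfl⟩ := h
  obtain ⟨k, rfl⟩ := Nat.exists_eq_add_of_le hij
  exact ⟨_, ppow_mem k hy, by rw [pow_add, mul_smul]⟩

theorem PP.of_coprime {j e : ℕ} (he : Nat.Coprime e p) {x : Fin m → ℚ_[p]}
    (h : PP Λ j ((e : ℤ) • x)) (h' : PP Λ j ((p : ℤ) • x)) : PP Λ j x := by
  have hb := Nat.gcd_eq_gcd_ab e p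
  rw [he] at hb
  have h1 := (h.zsmul (Nat.gcdA e p)).add (h'.zsmul (Nat.gcdB e p))
  rw [← mul_smul, ← mul_smul, ← add_smul] at h1
  have h2 : Nat.gcdA e p * (e : ℤ) + Nat.gcdB e p * (p : ℤ) = 1 := by
    rw [mul_comm, mul_comm (Nat.gcdB e p)]
    exact_mod_cast hb.symm
  rwa [h2, one_smul] at h1

theorem main : Q_LAT := by
  intro p _ m d e T Λ N₀ H1 H2 H3 H4 H5 H6 H7 H8
  have hN : ∀ x ∈ N₀, ∀ j, PP Λ j x := by
    intro x hx j
    refine ⟨((p : ℚ_[p]) ^ j)⁻¹ • x, H2 _ (N₀.smul_mem _ hx), ?_⟩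
    rw [smul_smul, mul_inv_cancel₀ (pow_ne_zero _ p_ne), one_smul]
  have hU : ∀ x ∈ Λ, (T - 1) x ∈ Λ := fun x hx => Λ.sub_mem (H4 x hx) hx
  have hUN : ∀ (k : ℕ), ∀ x ∈ N₀, ((T - 1) ^ k) x ∈ N₀ := by
    intro k
    induction k with
    | zero => intro x hx; simpa using hx
    | succ k ih =>
      intro x hx
      rw [pow_succ', Module.End.mul_apply]
      exact N₀.sub_mem (H5 _ (ih x hx)) (ih x hx)
  obtain ⟨q, hq, hqe⟩ : ∃ q : (Fin m → ℚ_[p]) →ₗ[ℚ_[p]] (Fin m → ℚ_[p]), (∀ x ∈ Λ, q x ∈ Λ) ∧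
      T ^ e = 1 + e • (T - 1) + (T - 1) * (T - 1) * q := by
    clear H7 H8
    induction e with
    | zero => exact ⟨0, fun x _ => Λ.zero_mem, by simp⟩
    | succ e ih =>
      obtain ⟨q, hq, h⟩ := ih
      refine ⟨e • 1 + q + (T - 1) * q, fun x hx => ?_, ?_⟩
      · exact Λ.add_mem (Λ.add_mem (nsmul_mem hx e) (hq x hx)) (hU _ (hq x hx))
      · rw [pow_succ', h, add_smul, one_smul]
        simp only [nsmul_eq_mul]
        obtain ⟨U, hUd⟩ : ∃ U, U = T - 1 := ⟨_, rfl⟩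
        have hT : T = 1 + U := by rw [hUd]; abel
        rw [← hUd, hT, (Nat.cast_commute e U).eq, mul_one]
        have hc : U * (U * (e : (Fin m → ℚ_[p]) →ₗ[ℚ_[p]] (Fin m → ℚ_[p]))) =
            U * U * (e : (Fin m → ℚ_[p]) →ₗ[ℚ_[p]] (Fin m → ℚ_[p])) := (mul_assoc _ _ _).symm
        simp only [mul_add, add_mul, one_mul, mul_one, hc, ← mul_assoc]
        abel
  have hexp : ∀ x, e • (T - 1) x = (T ^ e) x - x - (T - 1) ((T - 1) (q x)) := by
    intro x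
    rw [hqe]
    simp only [LinearMap.add_apply, Module.End.mul_apply, Module.End.one_apply, LinearMap.smul_apply]
    abel
  have hstep1 : ∀ k : ℕ, (∀ x ∈ Λ, PP Λ 1 (((T - 1) ^ (k + 1)) x)) → ∀ x ∈ Λ, PP Λ 1 ((T - 1) x) := by
    intro k
    induction k with
    | zero => intro h; simpa using h
    | succ k ih =>
      intro h
      refine ih fun x hx => ?_
      refine PP.of_coprime H7 ?_ ?_
      · have h1 : (e : ℤ) • ((T - 1) ^ (k + 1)) x =
            ((T - 1) ^ k) ((T ^ e) x - x) - ((T - 1) ^ (k + 1 + 1)) (q x) := by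
          have h2 : ((T - 1) ^ (k + 1)) x = ((T - 1) ^ k) ((T - 1) x) := by
            rw [pow_succ, Module.End.mul_apply]
          have h3 : ((T - 1) ^ (k + 1 + 1)) (q x) = ((T - 1) ^ k) ((T - 1) ((T - 1) (q x))) := by
            rw [pow_succ, pow_succ, Module.End.mul_apply, Module.End.mul_apply]
          rw [h2, h3, ← map_sub, ← hexp, ← map_zsmul]
          simp
        rw [h1]
        exact (hN _ (hUN k _ (H8 x)) 1).sub (h _ (hq x hx))
      · refine ⟨((T - 1) ^ (k + 1)) x, ?_, ?_⟩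
        · have : ∀ (n : ℕ), ∀ x ∈ Λ, ((T - 1) ^ n) x ∈ Λ := by
            intro n
            induction n with
            | zero => intro x hx; simpa using hx
            | succ n ih =>
              intro x hx
              rw [pow_succ', Module.End.mul_apply]
              exact hU _ (ih x hx)
          exact this _ x hx
        · rw [pow_one]
          rw [natCast_zsmul, Nat.cast_smul_eq_nsmul]
  have h1 : ∀ x ∈ Λ, PP Λ 1 ((T - 1) x) := by
    refine hstep1 d fun x hx => ?_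
    rw [pow_succ, Module.End.mul_apply]
    obtain ⟨y, hy, h⟩ := H6 _ (hU x hx)
    exact ⟨y, hy, by rw [h, pow_one]⟩
  have h2 : ∀ j : ℕ, ∀ x ∈ Λ, PP Λ (j + 1) ((T - 1) x) := by
    intro j
    induction j with
    | zero => simpa using h1
    | succ j ih =>
      intro x hx
      refine PP.of_coprime H7 ?_ ?_
      · have e1 : (e : ℤ) • (T - 1) x = (T ^ e) x - x - (T - 1) ((T - 1) (q x)) := by
          rw [← hexp]; simp
        rw [e1]
        refine (hN _ (H8 x) _).sub ?_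
        obtain ⟨y, hy, e2⟩ := ih _ (hq x hx)
        rw [e2, map_smul]
        obtain ⟨z, hz, e3⟩ := ih _ hy
        rw [e3, smul_smul, ← pow_add]
        exact PP.mono (by omega) ⟨z, hz, rfl⟩
      · obtain ⟨y, hy, e2⟩ := ih x hx
        refine ⟨y, hy, ?_⟩
        rw [natCast_zsmul, ← Nat.cast_smul_eq_nsmul ℚ_[p], e2, smul_smul, ← pow_succ']
  intro x
  obtain ⟨j, hj⟩ := H1 x
  have h3 : (T - 1) (((p : ℚ_[p]) ^ j) • x) ∈ N₀ := by
    refine H3 _ fun i => ?_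
    exact PP.mono (Nat.le_succ i) (h2 i _ hj)
  rw [map_smul] at h3
  have h4 := N₀.smul_mem (((p : ℚ_[p]) ^ j)⁻¹) h3
  rw [smul_smul, inv_mul_cancel₀ (pow_ne_zero _ p_ne), one_smul] at h4
  exact h4

end Pool.Agent.Helper85.Thin.LAT
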